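import Mathlib
import Pool.Graph.R_seed8.Y784.E3.FinOdd

/-!
# Abelian groups with three distinguished classes modulo two
-/

set_option autoImplicit false
set_option linter.unusedSectionVars false
set_option linter.unusedVariables false

namespace Pool.Agent.H98.A

/-- the classes modulo two are those of `0, q₀, q₁, q₂` -/
structure RkTwo (A : Type) [AddCommGroup A] (q₀ q₁ q₂ : A) : Prop where
  tor : ∀ P : A, P + P = 0 → P = 0
  cos : ∀ P : A, (∃ R, P = R + R) ∨ (∃ R, P + q₀ = R + R) ∨ (∃ R, P + q₁ = R + R) ∨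
    (∃ R, P + q₂ = R + R)
  n0 : ¬ ∃ R, q₀ = R + R
  n1 : ¬ ∃ R, q₁ = R + R
  n2 : ¬ ∃ R, q₂ = R + R
  sum : q₀ + q₁ + q₂ = 0

variable {A : Type} [AddCommGroup A] {q₀ q₁ q₂ : A}

lemma RkTwo.cos' (h : RkTwo A q₀ q₁ q₂) (P : A) : ∃ q : A, (q = 0 ∨ q = q₀ ∨ q = q₁ ∨ q = q₂) ∧
    ∃ R, P + q = R + R := by
  rcases h.cos P with h | h | h | h
  · exact ⟨0, Or.inl rfl, by rw [add_zero]; exact h⟩
  · exact ⟨q₀, Or.inr (Or.inl rfl), h⟩
  · exact ⟨q₁, Or.inr (Or.inr (Or.inl rfl)), h⟩
  · exact ⟨q₂, Or.inr (Or.inr (Or.inr rfl)), h⟩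

lemma RkTwo.not (h : RkTwo A q₀ q₁ q₂) {q : A} (hq : q = 0 ∨ q = q₀ ∨ q = q₁ ∨ q = q₂)
    (hd : ∃ R, q = R + R) : q = 0 := by
  rcases hq with rfl | rfl | rfl | rfl
  · rfl
  · exact absurd hd h.n0
  · exact absurd hd h.n1
  · exact absurd hd h.n2

/-- the anti-invariant elements -/
theorem RkTwo.fin_anti (h : RkTwo A q₀ q₁ q₂) (hfg : AddGroup.FG A) (σ : A →+ A)
    (h0 : σ q₀ = q₀) (h1 : σ q₁ = q₁) (h2 : σ q₂ = q₂) : Finite {P : A // σ P = -P} := by
  let H : AddSubgroup A := (σ + AddMonoidHom.id A).ker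
  have hmem : ∀ P : A, P ∈ H ↔ σ P + P = 0 := fun P => Iff.rfl
  have hσ : ∀ q : A, (q = 0 ∨ q = q₀ ∨ q = q₁ ∨ q = q₂) → σ q = q := by
    rintro q (rfl | rfl | rfl | rfl)
    · exact map_zero σ
    · exact h0
    · exact h1
    · exact h2
  have hdiv : ∀ P : H, ∃ R : H, P = 2 • R := by
    rintro ⟨P, hP⟩
    rw [hmem] at hP
    obtain ⟨q, hq, R, hR⟩ := h.cos' P
    have e1 := congrArg σ hR
    rw [map_add, map_add, hσ q hq] at e1
    have hS : R + σ R = q := by
      have h3 : (R + σ R - q) + (R + σ R - q) = 0 := by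
        have : (R + σ R - q) + (R + σ R - q) = (R + R) + (σ R + σ R) - q - q := by abel
        rw [this, ← hR, ← e1]
        have : P + q + (σ P + q) - q - q = σ P + P := by abel
        rw [this, hP]
      exact sub_eq_zero.1 (h.tor _ h3)
    obtain ⟨q', hq', T, hT⟩ := h.cos' R
    have e2 := congrArg σ hT
    rw [map_add, map_add, hσ q' hq'] at e2
    have hd : ∃ R, q = R + R := by
      refine ⟨T + σ T - q', ?_⟩
      have : T + σ T - q' + (T + σ T - q') = (T + T) + (σ T + σ T) - q' - q' := by abel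
      rw [this, ← hT, ← e2, ← hS]
      abel
    have hq0 := h.not hq hd
    rw [hq0] at hS hR
    refine ⟨⟨R, by rw [hmem, add_comm]; exact hS⟩, Subtype.ext ?_⟩
    show P = ((2 : ℕ) • (⟨R, _⟩ : H) : H).1
    rw [AddSubgroup.coe_nsmul, two_nsmul, ← hR, add_zero]
  have hfin := (Pool.Agent.Y784.E3.fin_of_div
    (Pool.Agent.H64R2.DDMWK.fg_of_inj H.subtype Subtype.val_injective hfg) hdiv).1
  refine Finite.of_injective (fun P : {P : A // σ P = -P} => (⟨P.1, by
    rw [hmem, P.2, neg_add_cancel]⟩ : H)) ?_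
  intro P P' hPP
  exact Subtype.ext (congrArg (fun x : H => x.1) hPP)

lemma RkTwo.indep (h : RkTwo A q₀ q₁ q₂) : LinearIndependent ℤ ![q₀, q₁] := by
  rw [LinearIndependent.pair_iff]
  have key : ∀ (n : ℕ) (s t : ℤ), s.natAbs + t.natAbs ≤ n → s • q₀ + t • q₁ = 0 → s = 0 ∧ t = 0 := by
    intro n
    induction n with
    | zero => intro s t hst _; omega
    | succ n ih =>
      intro s t hst h0
      obtain ⟨s', hs⟩ : ∃ s', s = 2 * s' ∨ s = 2 * s' + 1 := ⟨s / 2, by omega⟩
      obtain ⟨t', ht⟩ : ∃ t', t = 2 * t' ∨ t = 2 * t' + 1 := ⟨t / 2, by omega⟩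
      rcases hs with rfl | rfl <;> rcases ht with rfl | rfl
      · have h1 : s' • q₀ + t' • q₁ = 0 := by
          apply h.tor
          rw [← h0]
          module
        by_cases hz : s' = 0 ∧ t' = 0
        · rw [hz.1, hz.2]
          exact ⟨rfl, rfl⟩
        · have := ih s' t' (by omega) h1
          exact absurd this hz
      · exfalso
        refine h.n1 ⟨-(s' • q₀ + t' • q₁), ?_⟩
        have : q₁ = (2 * s') • q₀ + (2 * t' + 1) • q₁ - (s' • q₀ + t' • q₁) - (s' • q₀ + t' • q₁) := by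
          module
        rw [h0] at this
        nth_rewrite 1 [this]
        module
      · exfalso
        refine h.n0 ⟨-(s' • q₀ + t' • q₁), ?_⟩
        have : q₀ = (2 * s' + 1) • q₀ + (2 * t') • q₁ - (s' • q₀ + t' • q₁) - (s' • q₀ + t' • q₁) := by
          module
        rw [h0] at this
        nth_rewrite 1 [this]
        module
      · exfalso
        refine h.n2 ⟨s' • q₀ + t' • q₁, ?_⟩
        have e : q₂ = (q₀ + q₁ + q₂) - q₀ - q₁ := by abel
        have : q₂ = -((2 * s' + 1) • q₀ + (2 * t' + 1) • q₁) + (s' • q₀ + t' • q₁) +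
            (s' • q₀ + t' • q₁) := by
          rw [e, h.sum]
          module
        rw [h0] at this
        nth_rewrite 1 [this]
        module
  exact fun s t hst => key _ s t le_rfl hst

/-- the rank is two -/
theorem RkTwo.rank (h : RkTwo A q₀ q₁ q₂) (hfg : AddGroup.FG A) : Module.finrank ℤ A = 2 := by
  have hf : Module.Finite ℤ A := Module.Finite.iff_addGroup_fg.2 hfg
  set N : Submodule ℤ A := Submodule.span ℤ (Set.range ![q₀, q₁]) with hN
  have h1 : Module.finrank ℤ N = 2 := by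
    have := finrank_span_eq_card h.indep
    rw [Fintype.card_fin] at this
    exact this
  have m0 : q₀ ∈ N := Submodule.subset_span ⟨0, rfl⟩
  have m1 : q₁ ∈ N := Submodule.subset_span ⟨1, rfl⟩
  have m2 : q₂ ∈ N := by
    have e : q₂ = (q₀ + q₁ + q₂) - q₀ - q₁ := by abel
    rw [e, h.sum]
    exact N.sub_mem (N.sub_mem N.zero_mem m0) m1
  have hdiv : ∀ a : A ⧸ N, ∃ b, a = 2 • b := by
    intro a
    obtain ⟨P, rfl⟩ := Submodule.Quotient.mk_surjective N a
    obtain ⟨q, hq, R, hR⟩ := h.cos' P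
    refine ⟨Submodule.Quotient.mk R, ?_⟩
    rw [two_nsmul, ← Submodule.Quotient.mk_add, ← hR, Submodule.Quotient.mk_add]
    have hqN : q ∈ N := by
      rcases hq with rfl | rfl | rfl | rfl
      · exact N.zero_mem
      · exact m0
      · exact m1
      · exact m2
    rw [(Submodule.Quotient.mk_eq_zero N).2 hqN, add_zero]
  have hfin : Finite (A ⧸ N) := (Pool.Agent.Y784.E3.fin_of_div
    (Module.Finite.iff_addGroup_fg.1 inferInstance) hdiv).1
  have h2 : Module.finrank ℤ (A ⧸ N) = 0 := by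
    rw [Module.finrank_eq_zero_iff_isTorsion]
    intro x
    exact ⟨⟨(addOrderOf x : ℤ), mem_nonZeroDivisors_of_ne_zero (by
      exact_mod_cast (addOrderOf_pos x).ne')⟩, by
        show (addOrderOf x : ℤ) • x = 0
        rw [natCast_zsmul]
        exact addOrderOf_nsmul_eq_zero x⟩
  have h3 := Submodule.finrank_quotient_add_finrank N
  rw [h1, h2] at h3
  exact h3.symm

end Pool.Agent.H98.A
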