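import Pool.Agent.H98.A.Sel
import Pool.Agent.H98.A.Grp

/-!
# The points of `y² = x³ + 2000` modulo two
-/

set_option autoImplicit false
set_option linter.unusedSectionVars false
set_option linter.unusedVariables false

open NumberField IsDedekindDomain WithZero

namespace Pool.Agent.H98.A

open Pool.Agent.Y696
open Pool.Agent.K7.H70.SM
open Pool.Agent.H98.B
open scoped Classical

section
variable {K : Type} [Field K] [NumberField K]

lemma q_eqn {z : K} (hz : z ^ 3 = 1) : (100 : K) ^ 2 = (20 * z) ^ 3 + 2000 := by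
  rw [mul_pow, hz]
  norm_num

lemma add_zero_iff {x₁ y₁ x₂ y₂ : K} (h₁ : y₁ ^ 2 = x₁ ^ 3 + 2000) (h₂ : y₂ ^ 2 = x₂ ^ 3 + 2000)
    (h : x₁ = x₂ ∧ y₁ = -y₂) : pt h₁ + pt h₂ = 0 := by
  have : pt h₁ = -pt h₂ := by
    rw [neg_pt, pt_inj]
    exact h
  rw [this, neg_add_cancel]

/-- no elements of order two -/
lemma no_tor (hK : Gz K) (P : (E5 K).toAffine.Point) (h : P + P = 0) : P = 0 := by
  rcases pt_cases P with rfl | ⟨x, y, hxy, rfl⟩
  · rfl
  · exfalso
    have h1 := eq_neg_of_add_eq_zero_left h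
    rw [neg_pt, pt_inj] at h1
    refine no2 hK hxy ?_
    have h2 : (2 : K) ≠ 0 := two_ne_zero
    apply mul_left_cancel₀ h2
    linear_combination h1.2

/-- the doubles have `x` not small -/
lemma dbl_big (hK : Gz K) (h5 : P5 K) {x y : K} (hxy : y ^ 2 = x ^ 3 + 2000)
    (h : ∃ R, pt hxy = R + R) : 1 ≤ v5 h5 x := by
  obtain ⟨R, hR⟩ := h
  rcases pt_cases R with rfl | ⟨X, Y, hXY, rfl⟩
  · rw [add_zero] at hR
    exact absurd hR (pt_ne _)
  · have hY := no2 hK hXY
    obtain ⟨l, x₃, y₃, h₃, e1, e2, e3, e4, e5⟩ := add_pt hXY hXY (by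
      rintro ⟨-, h⟩
      apply hY
      have h2 : (2 : K) ≠ 0 := two_ne_zero
      apply mul_left_cancel₀ h2
      linear_combination h)
    rw [e5, pt_inj] at hR
    rw [hR.1, e3]
    exact big_dbl (v5_five h5) (v5_two h5) (v5_three h5) hXY hY e2

/-- the generators are not doubles -/
lemma q_not (hK : Gz K) (h5 : P5 K) {z : K} (hz : z ^ 3 = 1) : ¬ ∃ R, pt (q_eqn hz) = R + R := by
  intro h
  have h1 := dbl_big hK h5 _ h
  have hz1 : v5 h5 z = 1 := by
    have h2 := congrArg (v5 h5) hz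
    rw [map_pow, map_one] at h2
    refine le_antisymm ((pow_le_one_iff three_ne_zero).1 h2.le) ?_
    exact (one_le_pow_iff_of_nonneg zero_le three_ne_zero).1 h2.ge
  have e : (20 : K) = 2 * 2 * 5 := by norm_num
  rw [map_mul, hz1, mul_one, e, map_mul, map_mul, v5_two h5, v5_five h5, one_mul, one_mul,
    ← exp_zero, exp_le_exp] at h1
  norm_num at h1

/-- adding a generator -/
lemma add_q (hK : Gz K) (h5 : P5 K) {x y z : K} (hxy : y ^ 2 = x ^ 3 + 2000) (hx : v5 h5 x < 1)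
    (hz : z ^ 3 = 1) (hxz : v5 h5 (x - 20 * z) ≤ exp (-2 : ℤ)) :
    ∃ R, pt hxy + pt (q_eqn hz) = R + R := by
  by_cases hne : x = 20 * z ∧ y = -100
  · refine ⟨0, ?_⟩
    rw [add_zero]
    exact add_zero_iff _ _ hne
  · obtain ⟨l, x₃, y₃, h₃, e1, e2, e3, e4, e5⟩ := add_pt hxy (q_eqn hz) hne
    rw [e5]
    refine half_big hK h5 h₃ ?_
    rw [e3]
    refine big_add (v5_five h5) (v5_two h5) (v5_three h5) hxy hx ?_ hxz e2
    rw [mul_pow, hz]
    norm_num

lemma w3 {w : K} (hw : w ^ 2 + w + 1 = 0) : w ^ 3 = 1 := by linear_combination (w - 1) * hw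

lemma w6 {w : K} (hw : w ^ 2 + w + 1 = 0) : (w ^ 2) ^ 3 = 1 := by
  linear_combination (w ^ 3 + 1) * (w - 1) * hw

/-- **the classes modulo two** -/
theorem rkTwo (hK : Gz K) (h5 : P5 K) {w : K} (hw : w ^ 2 + w + 1 = 0) :
    RkTwo (E5 K).toAffine.Point (pt (q_eqn (one_pow 3))) (pt (q_eqn (w3 hw)))
      (pt (q_eqn (w6 hw))) where
  tor := no_tor hK
  cos := by
    intro P
    rcases pt_cases P with rfl | ⟨x, y, hxy, rfl⟩
    · exact Or.inl ⟨0, (add_zero _).symm⟩
    · rcases lt_or_ge (v5 h5 x) 1 with hx | hx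
      · right
        rcases small_root (v5_five h5) (v5_two h5) hw hxy hx with h | h | h
        · exact Or.inl (add_q hK h5 hxy hx (one_pow 3) (by rwa [mul_one]))
        · exact Or.inr (Or.inl (add_q hK h5 hxy hx (w3 hw) h))
        · exact Or.inr (Or.inr (add_q hK h5 hxy hx (w6 hw) h))
      · exact Or.inl (half_big hK h5 hxy hx)
  n0 := q_not hK h5 (one_pow 3)
  n1 := q_not hK h5 (w3 hw)
  n2 := q_not hK h5 (w6 hw)
  sum := by
    have hw1 : w ≠ 1 := by
      rintro rfl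
      have h3 : (3 : K) ≠ 0 := three_ne_zero
      apply h3
      linear_combination hw
    have h : pt (q_eqn (one_pow 3)) + pt (q_eqn (w3 hw)) = -pt (q_eqn (w6 hw)) := by
      rw [neg_pt]
      refine add_pt' (l := 0) _ _ _ ?_ ?_ ?_ ?_ ?_
      · rintro ⟨h, -⟩
        apply hw1
        have h20 : (20 : K) ≠ 0 := by norm_num
        apply mul_left_cancel₀ h20
        rw [← h]
      · ring
      · linear_combination (-400) * hw
      · linear_combination 20 * hw
      · ring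
    rw [h, neg_add_cancel]

lemma fg5 (K : Type) [Field K] [NumberField K] : AddGroup.FG (E5 K).toAffine.Point := by
  have h := Pool.Agent.H64R2.DDMWK.mwk K 0 2000 (by norm_num)
  refine Pool.Agent.H64R2.DDMWK.fg_of_eq ?_ h
  show (⟨0, 0, 0, ((0 : ℤ) : K), ((2000 : ℤ) : K)⟩ : WeierstrassCurve K) = ⟨0, 0, 0, 0, 2000⟩
  rw [Int.cast_zero]
  norm_num

end

end Pool.Agent.H98.A
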