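import Mathlib

/-!
# The curve `y² = x³ + 2000`
-/

set_option autoImplicit false
set_option linter.unusedSectionVars false
set_option linter.unusedVariables false

namespace Pool.Agent.H98.A

open WeierstrassCurve
open scoped Classical

/-- the curve `y² = x³ + 2000` -/
abbrev E5 (K : Type) [Field K] : WeierstrassCurve K := ⟨0, 0, 0, 0, 2000⟩

section
variable {K : Type} [Field K] [CharZero K]

lemma E5_Δ : (E5 K).Δ ≠ 0 := by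
  have e : (E5 K).Δ = -(432 * 2000 ^ 2) := by
    simp [WeierstrassCurve.Δ, WeierstrassCurve.b₂, WeierstrassCurve.b₄, WeierstrassCurve.b₆,
      WeierstrassCurve.b₈]
    norm_num
  rw [e]
  norm_num

omit [CharZero K] in
lemma eqn_iff {x y : K} : (E5 K).toAffine.Equation x y ↔ y ^ 2 = x ^ 3 + 2000 := by
  rw [Affine.equation_iff]
  simp only [zero_mul, add_zero]

lemma ns_of {x y : K} (h : y ^ 2 = x ^ 3 + 2000) : (E5 K).toAffine.Nonsingular x y :=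
  (Affine.equation_iff_nonsingular_of_Δ_ne_zero E5_Δ).1 (eqn_iff.2 h)

/-- a point -/
noncomputable def pt {x y : K} (h : y ^ 2 = x ^ 3 + 2000) : (E5 K).toAffine.Point :=
  .some x y (ns_of h)

lemma pt_inj {x y x' y' : K} {h : y ^ 2 = x ^ 3 + 2000} {h' : y' ^ 2 = x' ^ 3 + 2000} :
    pt h = pt h' ↔ x = x' ∧ y = y' := by
  unfold pt
  rw [Affine.Point.some.injEq]

lemma pt_ne {x y : K} (h : y ^ 2 = x ^ 3 + 2000) : pt h ≠ 0 := Affine.Point.some_ne_zero _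

lemma pt_cases (P : (E5 K).toAffine.Point) :
    P = 0 ∨ ∃ (x y : K) (h : y ^ 2 = x ^ 3 + 2000), P = pt h := by
  match P with
  | 0 => exact Or.inl rfl
  | .some x y h => exact Or.inr ⟨x, y, eqn_iff.1 h.1, rfl⟩

omit [CharZero K] in
lemma negY_eq (x y : K) : (E5 K).toAffine.negY x y = -y := by
  simp [Affine.negY]

lemma neg_pt {x y : K} (h : y ^ 2 = x ^ 3 + 2000) :
    -pt h = pt (x := x) (y := -y) (by rw [neg_pow_two]; exact h) := by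
  unfold pt
  rw [Affine.Point.neg_some, Affine.Point.some.injEq]
  exact ⟨rfl, negY_eq x y⟩

omit [CharZero K] in
lemma slope_spec {x₁ y₁ x₂ y₂ : K} (h₁ : y₁ ^ 2 = x₁ ^ 3 + 2000) (h₂ : y₂ ^ 2 = x₂ ^ 3 + 2000)
    (hne : ¬(x₁ = x₂ ∧ y₁ = -y₂)) :
    (E5 K).toAffine.slope x₁ x₂ y₁ y₂ * (x₁ - x₂) = y₁ - y₂ ∧
      (E5 K).toAffine.slope x₁ x₂ y₁ y₂ * (y₁ + y₂) = x₁ ^ 2 + x₁ * x₂ + x₂ ^ 2 := by
  by_cases hx : x₁ = x₂
  · have hy : y₁ ≠ (E5 K).toAffine.negY x₂ y₂ := by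
      rw [negY_eq]
      exact fun h => hne ⟨hx, h⟩
    have hyy : y₁ = y₂ := by
      have h3 : (y₁ - y₂) * (y₁ + y₂) = 0 := by
        rw [hx] at h₁
        linear_combination h₁ - h₂
      rcases mul_eq_zero.1 h3 with h | h
      · exact sub_eq_zero.1 h
      · exact absurd ⟨hx, eq_neg_of_add_eq_zero_left h⟩ hne
    rw [Affine.slope_of_Y_ne hx hy, negY_eq]
    subst hx hyy
    have h4 : y₁ - -y₁ ≠ 0 := fun h => hne ⟨rfl, sub_eq_zero.1 h⟩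
    refine ⟨by rw [sub_self, sub_self, mul_zero], ?_⟩
    rw [show y₁ + y₁ = y₁ - -y₁ by ring, div_mul_cancel₀ _ h4]
    ring
  · have hx' : x₁ - x₂ ≠ 0 := sub_ne_zero.2 hx
    rw [Affine.slope_of_X_ne hx]
    refine ⟨div_mul_cancel₀ _ hx', ?_⟩
    field_simp
    linear_combination h₁ - h₂

/-- the addition law -/
lemma add_pt {x₁ y₁ x₂ y₂ : K} (h₁ : y₁ ^ 2 = x₁ ^ 3 + 2000) (h₂ : y₂ ^ 2 = x₂ ^ 3 + 2000)
    (hne : ¬(x₁ = x₂ ∧ y₁ = -y₂)) : ∃ (l x₃ y₃ : K) (h₃ : y₃ ^ 2 = x₃ ^ 3 + 2000),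
      l * (x₁ - x₂) = y₁ - y₂ ∧ l * (y₁ + y₂) = x₁ ^ 2 + x₁ * x₂ + x₂ ^ 2 ∧
      x₃ = l ^ 2 - x₁ - x₂ ∧ y₃ = l * (x₁ - x₃) - y₁ ∧ pt h₁ + pt h₂ = pt h₃ := by
  obtain ⟨e1, e2⟩ := slope_spec h₁ h₂ hne
  set l := (E5 K).toAffine.slope x₁ x₂ y₁ y₂ with hl
  have hne' : ¬(x₁ = x₂ ∧ y₁ = (E5 K).toAffine.negY x₂ y₂) := by rw [negY_eq]; exact hne
  have h := Affine.Point.add_some (W := (E5 K).toAffine) hne' (h₁ := ns_of h₁) (h₂ := ns_of h₂)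
  have hX : (E5 K).toAffine.addX x₁ x₂ l = l ^ 2 - x₁ - x₂ := by
    simp [Affine.addX]
  have hY : (E5 K).toAffine.addY x₁ x₂ y₁ l = l * (x₁ - (l ^ 2 - x₁ - x₂)) - y₁ := by
    simp only [Affine.addY, Affine.negAddY, hX, negY_eq]
    ring
  have h3 : ((E5 K).toAffine.addY x₁ x₂ y₁ l) ^ 2 = ((E5 K).toAffine.addX x₁ x₂ l) ^ 3 + 2000 := by
    have hn := Affine.nonsingular_add (W := (E5 K).toAffine) (ns_of h₁) (ns_of h₂) hne'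
    exact eqn_iff.1 hn.1
  refine ⟨l, _, _, h3, e1, e2, hX, ?_, h⟩
  rw [hY, hX]

/-- the addition law, with a given slope -/
lemma add_pt' {x₁ y₁ x₂ y₂ l x₃ y₃ : K} (h₁ : y₁ ^ 2 = x₁ ^ 3 + 2000)
    (h₂ : y₂ ^ 2 = x₂ ^ 3 + 2000) (h₃ : y₃ ^ 2 = x₃ ^ 3 + 2000)
    (hne : ¬(x₁ = x₂ ∧ y₁ = -y₂)) (e1 : l * (x₁ - x₂) = y₁ - y₂)
    (e2 : l * (y₁ + y₂) = x₁ ^ 2 + x₁ * x₂ + x₂ ^ 2)
    (hx₃ : x₃ = l ^ 2 - x₁ - x₂) (hy₃ : y₃ = l * (x₁ - x₃) - y₁) : pt h₁ + pt h₂ = pt h₃ := by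
  obtain ⟨l', x', y', h', f1, f2, f3, f4, f5⟩ := add_pt h₁ h₂ hne
  have hll : l' = l := by
    by_cases hx : x₁ = x₂
    · have hy : y₁ + y₂ ≠ 0 := fun h => hne ⟨hx, eq_neg_of_add_eq_zero_left h⟩
      apply mul_right_cancel₀ hy
      rw [f2, e2]
    · apply mul_right_cancel₀ (sub_ne_zero.2 hx)
      rw [f1, e1]
  subst hll
  rw [f5, pt_inj]
  have hxx : x' = x₃ := by rw [f3, hx₃]
  exact ⟨hxx, by rw [f4, hy₃, hxx]⟩

/-- halving -/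
lemma halve {x y u v w : K} (hxy : y ^ 2 = x ^ 3 + 2000) (hx : x = u ^ 2 + 4 * v * w)
    (h10 : 2 * u * v + 2 * w ^ 2 = 10) (h0 : v ^ 2 + 2 * u * w = 0)
    (hN : u ^ 3 + 2 * v ^ 3 + 4 * w ^ 3 - 6 * u * v * w = y)
    (no2 : ∀ a b : K, b ^ 2 = a ^ 3 + 2000 → b ≠ 0) :
    ∃ R : (E5 K).toAffine.Point, pt hxy = R + R := by
  have h5 : u * v + w ^ 2 = 5 := by
    have h2 : (2 : K) ≠ 0 := two_ne_zero
    apply mul_left_cancel₀ h2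
    linear_combination h10
  have hR : (9 * u * (u ^ 2 - 2 * v * w) - y) ^ 2 = (4 * u ^ 2 - 2 * v * w) ^ 3 + 2000 := by
    rw [← hN]
    have e : (2000 : K) = 16 * (u * v + w ^ 2) ^ 3 := by rw [h5]; norm_num
    rw [e]
    linear_combination (-48 * u ^ 3 * v - 32 * u ^ 2 * w ^ 2 + 40 * u * v ^ 2 * w + 4 * v ^ 4 +
      24 * v * w ^ 3) * h0
  have hY := no2 _ _ hR
  refine ⟨pt hR, (add_pt' hR hR hxy ?_ (l := 3 * u) (by ring) ?_ ?_ ?_).symm⟩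
  · rintro ⟨-, h⟩
    apply hY
    have h2 : (2 : K) ≠ 0 := two_ne_zero
    apply mul_left_cancel₀ h2
    linear_combination h
  · rw [← hN]
    linear_combination (-3) * (4 * u * v + 4 * w ^ 2) * h0
  · rw [hx]
    ring
  · rw [hx]
    ring

end

end Pool.Agent.H98.A
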