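import Pool.Agent.H98.A.Crv
import Pool.Graph.R_pool_sql_team_seeded_35f281b4.K7.H70.TW.C

/-!
# The forms of `y² = x³ + 2000` split by a 2-extension
-/

set_option autoImplicit false
set_option linter.unusedSectionVars false
set_option linter.unusedVariables false

open WeierstrassCurve

namespace Pool.Agent.H98.A

open Pool.Agent.K7.H70.TW (Ed)
open scoped Classical

/-- **the forms split by a 2-extension are quadratic twists** -/
theorem form5 {k K : Type} [Field k] [CharZero k] [Field K] [Algebra k K]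
    [FiniteDimensional k K] {m : ℕ} (hm : Module.finrank k K = 2 ^ m) (W : WeierstrassCurve k)
    (C : VariableChange K) (hC : C • W.map (algebraMap k K) = E5 K) :
    W.c₄ = 0 ∧ ∃ (d : k) (θ : K), d ≠ 0 ∧ θ ^ 2 = algebraMap k K d ∧
      ∃ C' : VariableChange k, C' • W = Ed (5 * d) := by
  have hch : CharZero K := charZero_of_injective_algebraMap (algebraMap k K).injective
  have hu : ((C.u⁻¹ : Kˣ) : K) ≠ 0 := (C.u⁻¹).ne_zero
  have h4 : W.c₄ = 0 := by
    have h1 := congrArg WeierstrassCurve.c₄ hC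
    rw [variableChange_c₄, map_c₄] at h1
    have h2 : (E5 K).c₄ = 0 := by
      simp [WeierstrassCurve.c₄, WeierstrassCurve.b₂, WeierstrassCurve.b₄]
    rw [h2] at h1
    rcases mul_eq_zero.1 h1 with h3 | h3
    · exact absurd h3 (pow_ne_zero 4 hu)
    · exact (map_eq_zero _).1 h3
  have : Invertible (2 : k) := invertibleOfNonzero two_ne_zero
  have : Invertible (3 : k) := invertibleOfNonzero three_ne_zero
  obtain ⟨C1, hC1⟩ := W.exists_variableChange_isShortNF
  set V := C1 • W with hV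
  have hV4 : V.c₄ = 0 := by rw [hV, variableChange_c₄, h4, mul_zero]
  have ha4 : V.a₄ = 0 := by
    have h1 : V.c₄ = -48 * V.a₄ := V.c₄_of_isShortNF
    rw [hV4] at h1
    have h48 : (48 : k) ≠ 0 := by norm_num
    have h2 : (48 : k) * V.a₄ = 0 := by linear_combination h1
    exact (mul_eq_zero.1 h2).resolve_left h48
  have hVe : V = ⟨0, 0, 0, 0, V.a₆⟩ := by
    ext
    · exact V.a₁_of_isShortNF
    · exact V.a₂_of_isShortNF
    · exact V.a₃_of_isShortNF
    · exact ha4
    · rfl
  set D := V.a₆ with hD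
  -- the sixth root
  have h6 : V.c₆ = -864 * D := V.c₆_of_isShortNF
  have hW6 : W.c₆ = ((C1⁻¹).u⁻¹ : kˣ) ^ 6 * (-864 * D) := by
    have h1 : W = C1⁻¹ • V := by rw [hV, inv_smul_smul]
    rw [← h6, h1, variableChange_c₆]
  have h7 := congrArg WeierstrassCurve.c₆ hC
  rw [variableChange_c₆, map_c₆, hW6] at h7
  have h8 : (E5 K).c₆ = -1728000 := by
    simp [WeierstrassCurve.c₆, WeierstrassCurve.b₂, WeierstrassCurve.b₄, WeierstrassCurve.b₆]
    norm_num
  rw [h8] at h7
  obtain ⟨x, hx⟩ : ∃ x : K, x = ((C.u⁻¹ : Kˣ) : K) * algebraMap k K (((C1⁻¹).u⁻¹ : kˣ) : k) :=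
    ⟨_, rfl⟩
  have h9 : x ^ 6 * algebraMap k K D = 2000 := by
    rw [map_mul, map_pow, map_mul, map_neg, map_ofNat] at h7
    rw [hx]
    have h864 : (864 : K) ≠ 0 := by norm_num
    apply mul_left_cancel₀ h864
    linear_combination -h7
  have hx0 : x ≠ 0 := by
    rintro rfl
    rw [zero_pow (by norm_num), zero_mul] at h9
    norm_num at h9
  obtain ⟨γ, hγ⟩ : ∃ γ : K, γ = x⁻¹ := ⟨_, rfl⟩
  have hγ6 : algebraMap k K (D / 2000) = γ ^ 6 := by
    rw [map_div₀, map_ofNat, hγ]
    field_simp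
    linear_combination h9
  have hγ0 : γ ≠ 0 := by
    rw [hγ]
    exact inv_ne_zero hx0
  -- a cube root in the small field
  obtain ⟨d, hd⟩ : ∃ d : k, d ^ 3 = D / 2000 := by
    by_contra hcon
    push Not at hcon
    have hirr : Irreducible (Polynomial.X ^ 3 - Polynomial.C (D / 2000)) := by
      rw [X_pow_sub_C_irreducible_iff_of_prime Nat.prime_three]
      exact fun b => hcon b
    have hmin : minpoly k (γ ^ 2) = Polynomial.X ^ 3 - Polynomial.C (D / 2000) := by
      refine (minpoly.eq_of_irreducible_of_monic hirr ?_ (Polynomial.monic_X_pow_sub_C _ three_ne_zero)).symm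
      rw [map_sub, map_pow, Polynomial.aeval_X, Polynomial.aeval_C, hγ6]
      ring
    have hint : _root_.IsIntegral k (γ ^ 2) := Algebra.IsIntegral.isIntegral _
    have h3 := IntermediateField.adjoin.finrank hint
    rw [hmin, Polynomial.natDegree_X_pow_sub_C] at h3
    have h10 : 3 ∣ 2 ^ m := by
      rw [← hm, ← h3]
      exact ⟨_, (Module.finrank_mul_finrank k (IntermediateField.adjoin k {γ ^ 2}) K).symm⟩
    exact absurd (Nat.Prime.dvd_of_dvd_pow Nat.prime_three h10) (by norm_num)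
  have hd0 : d ≠ 0 := by
    rintro rfl
    rw [zero_pow three_ne_zero] at hd
    rw [← hd, map_zero] at hγ6
    exact pow_ne_zero 6 hγ0 hγ6.symm
  have hdK : algebraMap k K d ≠ 0 := (map_ne_zero_iff _ (algebraMap k K).injective).2 hd0
  refine ⟨h4, d, γ ^ 3 / algebraMap k K d, hd0, ?_, C1, ?_⟩
  · have h11 : algebraMap k K d ^ 3 = γ ^ 6 := by rw [← map_pow, hd, hγ6]
    field_simp
    linear_combination -h11
  · rw [← hV, hVe]
    unfold Ed
    congr 1
    rw [mul_pow, hd]
    field_simp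
    ring

/-- a form is trivial if and only if the parameter is a square -/
theorem triv_iff {k : Type} [Field k] [CharZero k] {w : k} (hw : w ^ 2 + w + 1 = 0)
    (W : WeierstrassCurve k) {d : k} (hd0 : d ≠ 0) (C' : VariableChange k)
    (hC' : C' • W = Ed (5 * d)) : (∃ C : VariableChange k, C • W = E5 k) ↔ IsSquare d := by
  constructor
  · rintro ⟨C, hC⟩
    have h1 : (C' * C⁻¹) • E5 k = Ed (5 * d) := by
      rw [mul_smul, ← hC, inv_smul_smul, hC']
    obtain ⟨u, hu⟩ : ∃ u : kˣ, u = (C' * C⁻¹).u⁻¹ := ⟨_, rfl⟩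
    have h2 := congrArg WeierstrassCurve.c₆ h1
    rw [variableChange_c₆, ← hu] at h2
    have h3 : (E5 k).c₆ = -1728000 := by
      simp [WeierstrassCurve.c₆, WeierstrassCurve.b₂, WeierstrassCurve.b₄, WeierstrassCurve.b₆]
      norm_num
    have h4 : (Ed (5 * d)).c₆ = -1728000 * d ^ 3 := by
      simp [WeierstrassCurve.c₆, WeierstrassCurve.b₂, WeierstrassCurve.b₄, WeierstrassCurve.b₆]
      ring
    rw [h3, h4] at h2
    have h5 : ((u : k) ^ 2) ^ 3 = d ^ 3 := by
      have h6 : (1728000 : k) ≠ 0 := by norm_num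
      apply mul_left_cancel₀ h6
      linear_combination -h2
    have h6 : (d - u ^ 2) * (d - (w ^ 2 * u) ^ 2) * (d - (w * u) ^ 2) = 0 := by
      linear_combination -h5 + (-(d ^ 2 * u ^ 2 * (w ^ 2 - w + 1)) + d * u ^ 4 * (w ^ 4 - w ^ 3 + w ^ 2) -
        (u : k) ^ 6 * (w - 1) * (w ^ 3 + 1)) * hw
    rcases mul_eq_zero.1 h6 with h | h
    · rcases mul_eq_zero.1 h with h | h
      · exact ⟨u, by linear_combination h⟩
      · exact ⟨w ^ 2 * u, by linear_combination h⟩
    · exact ⟨w * u, by linear_combination h⟩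
  · rintro ⟨r, hr⟩
    have hr0 : r ≠ 0 := by
      rintro rfl
      exact hd0 (by rw [hr, mul_zero])
    refine ⟨(⟨Units.mk0 r hr0, 0, 0, 0⟩ : VariableChange k) * C', ?_⟩
    rw [mul_smul, hC']
    ext
    · simp [variableChange_a₁]
    · simp [variableChange_a₂]
    · simp [variableChange_a₃]
    · simp [variableChange_a₄]
    · simp only [variableChange_a₆, Units.val_inv_eq_inv_val, Units.val_mk0, hr]
      field_simp
      ring

end Pool.Agent.H98.A
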