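import Pool.Agent.H98.B.Tow2

/-!
# `Gz` for all the fields of the family
-/

set_option autoImplicit false
set_option linter.unusedSectionVars false
set_option linter.unusedVariables false

open NumberField IsDedekindDomain

namespace Pool.Agent.H98.A

open Pool.Agent.K7.H56
open Pool.Agent.K7.H56.P
open Pool.Agent.Y696
open Pool.Agent.K7.H70.SM
open Pool.Agent.K7.H56.M Pool.Agent.K7.H70.AS
open Pool.Agent.K7.H73.L3 (gz3)
open Pool.Agent.H98.B

/-- the tower -/
theorem gz_tow {F K : Type} [Field F] [NumberField F] [IsCyclotomicExtension {3} ℚ F]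
    [Field K] [NumberField K] [Algebra F K] [IsGalois F K] {r : ℕ}
    (hr : Module.finrank F K = 2 ^ r) (hG : Gd F K) (n : ℕ) :
    ∀ (T : Type) [Field T] [NumberField T] [Algebra F T], (T →ₐ[F] K) →
      Module.finrank F T = 2 ^ n → Gz T := by
  induction n with
  | zero =>
    intro T _ _ _ φ h1
    have := cyc_one (F := F) (T := T) h1
    exact gz3 T
  | succ m ih =>
    intro T _ _ _ φ h1
    obtain ⟨N, h2, h3⟩ := exists_mid (K := K) h1 hr φ
    let _ : Algebra T K := φ.toRingHom.toAlgebra
    have hFTK : IsScalarTower F T K :=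
      IsScalarTower.of_algebraMap_eq fun x => (φ.commutes x).symm
    have hGT : Gd F T := gd_bot (K := K) hG
    let _ : Algebra N K := (φ.comp N.val).toRingHom.toAlgebra
    have hFNK : IsScalarTower F N K :=
      IsScalarTower.of_algebraMap_eq fun x => ((φ.comp N.val).commutes x).symm
    have hNC : NC F N := nc_of_tower (K := K) hr
    have hGN : Gd N T := gd_top (F := F) hNC hGT
    have hgal : IsGalois N T := gal2' h3
    exact (ih N (φ.comp N.val) h2).step (n := 1) (by rw [h3, pow_one]) hGN

/-- all the fields of the family -/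
theorem gz_all {M0 L : Type} [Field M0] [NumberField M0] [IsCyclotomicExtension {3} ℚ M0] [Field L]
    [NumberField L] [Algebra M0 L] [IsGalois M0 L] (hr : ∃ r : ℕ, Module.finrank M0 L = 2 ^ r)
    (hG : Gd M0 L) {T : Type} [Field T] [NumberField T] [Algebra T L] {a : T} (ha : a ^ 2 = -3) :
    Gz T := by
  obtain ⟨r, hr⟩ := hr
  obtain ⟨f, hf⟩ := exists_alg (F0 := M0) (K := L) (M := T) ha
  let _ : Algebra M0 T := f.toAlgebra
  let φ : T →ₐ[M0] L :=
    { (algebraMap T L) with
      commutes' := fun x => by
        show algebraMap T L (f x) = algebraMap M0 L x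
        rw [← hf]
        rfl }
  have hst : IsScalarTower M0 T L := IsScalarTower.of_algebraMap_eq fun x => (φ.commutes x).symm
  have hd : Module.finrank M0 T ∣ 2 ^ r := by
    rw [← hr, ← Module.finrank_mul_finrank M0 T L]
    exact Dvd.intro _ rfl
  obtain ⟨n, -, hn⟩ := (Nat.dvd_prime_pow Nat.prime_two).1 hd
  exact gz_tow hr hG n T φ hn

end Pool.Agent.H98.A
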