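import Pool.Agent.H98.A.Loc

/-!
# The place above five
-/

set_option autoImplicit false
set_option linter.unusedSectionVars false
set_option linter.unusedVariables false

namespace Pool.Agent.H98.A

open Pool.Agent.Y696 IsDedekindDomain NumberField WithZero

section val
variable {K : Type} [Field K] {v : Valuation K ℤᵐ⁰} (h5 : v 5 = exp (-1 : ℤ)) (h2 : v 2 = 1)
  (h3 : v 3 = 1)

/-- the values are powers -/
lemma le_exp_of_lt {z : ℤᵐ⁰} {n : ℤ} (h : z < exp n) : z ≤ exp (n - 1) := by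
  by_cases h0 : z = 0
  · rw [h0]
    exact zero_le
  · obtain ⟨k, rfl⟩ := exp_rep h0
    rw [exp_lt_exp] at h
    rw [exp_le_exp]
    omega

include h5 h2

lemma v2000 : v 2000 = exp (-3 : ℤ) := by
  have : (2000 : K) = 2 * 2 * 2 * 2 * 5 ^ 3 := by norm_num
  rw [this]
  simp only [map_mul, map_pow, h2, one_mul, h5, ← exp_nsmul]
  rfl

lemma v16000 : v 16000 = exp (-3 : ℤ) := by
  have : (16000 : K) = 2 * 2 * 2 * 2000 := by norm_num
  rw [this]
  simp only [map_mul, h2, one_mul, v2000 h5 h2]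

include h3

lemma v18000 : v 18000 = exp (-3 : ℤ) := by
  have : (18000 : K) = 3 * 3 * 2000 := by norm_num
  rw [this]
  simp only [map_mul, h3, one_mul, v2000 h5 h2]

omit h3

lemma v100 : v 100 = exp (-2 : ℤ) := by
  have : (100 : K) = 2 * 2 * 5 ^ 2 := by norm_num
  rw [this]
  simp only [map_mul, map_pow, h2, one_mul, h5, ← exp_nsmul]
  rfl

lemma v8000 : v 8000 = exp (-3 : ℤ) := by
  have : (8000 : K) = 2 * 2 * 2000 := by norm_num
  rw [this]
  simp only [map_mul, h2, one_mul, v2000 h5 h2]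

/-- the points with `x` small -/
lemma small_y {x y : K} (hxy : y ^ 2 = x ^ 3 + 2000) (hx : v x < 1) :
    v (y ^ 2) ≤ exp (-4 : ℤ) ∧ v y ≤ exp (-2 : ℤ) := by
  have hx1 : v x ≤ exp (-1 : ℤ) := by
    have := le_exp_of_lt (n := 0) (by rwa [exp_zero])
    exact this
  have hx3 : v (x ^ 3) ≤ exp (-3 : ℤ) := by
    rw [map_pow]
    refine (pow_le_pow_left₀ zero_le hx1 3).trans ?_
    rw [← exp_nsmul]
    rfl
  have h6 : v (y ^ 2) ≤ exp (-3 : ℤ) := by
    rw [hxy]
    exact v.map_add_le hx3 (v2000 h5 h2).le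
  by_cases hy : v y = 0
  · rw [map_pow, hy]
    refine ⟨?_, zero_le⟩
    rw [zero_pow two_ne_zero]
    exact zero_le
  · obtain ⟨l, hl⟩ := exp_rep hy
    rw [map_pow, hl, ← exp_nsmul, exp_le_exp] at h6
    rw [map_pow, hl, ← exp_nsmul, exp_le_exp, exp_le_exp]
    simp only [nsmul_eq_mul] at h6 ⊢
    push_cast at h6 ⊢
    omega

lemma small_x {x y : K} (hxy : y ^ 2 = x ^ 3 + 2000) (hx : v x < 1) : v x = exp (-1 : ℤ) := by
  have h6 := (small_y h5 h2 hxy hx).1
  have h7 : v (x ^ 3) = exp (-3 : ℤ) := by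
    have e : x ^ 3 = y ^ 2 - 2000 := by rw [hxy]; ring
    rw [e, Valuation.map_sub_eq_of_lt_right v, v2000 h5 h2]
    rw [v2000 h5 h2]
    refine lt_of_le_of_lt h6 ?_
    rw [exp_lt_exp]
    norm_num
  have hx0 : v x ≠ 0 := by
    intro h0
    rw [map_pow, h0, zero_pow three_ne_zero] at h7
    exact exp_ne_zero h7.symm
  obtain ⟨k, hk⟩ := exp_rep hx0
  rw [map_pow, hk, ← exp_nsmul] at h7
  have h8 := exp_injective h7
  simp only [nsmul_eq_mul] at h8
  push_cast at h8
  rw [hk]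
  congr 1
  omega

/-- the residue class -/
lemma small_root {x y w : K} (hw : w ^ 2 + w + 1 = 0) (hxy : y ^ 2 = x ^ 3 + 2000) (hx : v x < 1) :
    v (x - 20) ≤ exp (-2 : ℤ) ∨ v (x - 20 * w) ≤ exp (-2 : ℤ) ∨
      v (x - 20 * w ^ 2) ≤ exp (-2 : ℤ) := by
  by_contra hcon
  push Not at hcon
  obtain ⟨c1, c2, c3⟩ := hcon
  have hge : ∀ z : K, exp (-2 : ℤ) < v z → exp (-1 : ℤ) ≤ v z := by
    intro z hz
    by_contra h
    push Not at h
    exact absurd (le_exp_of_lt h) (not_le.2 (by simpa using hz))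
  have h6 := (small_y h5 h2 hxy hx).1
  have h7 : v ((x - 20) * (x - 20 * w) * (x - 20 * w ^ 2)) ≤ exp (-4 : ℤ) := by
    have e : (x - 20) * (x - 20 * w) * (x - 20 * w ^ 2) = y ^ 2 - 5 * 2000 := by
      rw [hxy]
      linear_combination (-20 * x ^ 2 + 400 * x * w - 8000 * (w - 1)) * hw
    rw [e]
    refine v.map_sub_le h6 ?_
    rw [map_mul, h5, v2000 h5 h2, ← exp_add]
    rfl
  have h8 : exp (-3 : ℤ) ≤ v ((x - 20) * (x - 20 * w) * (x - 20 * w ^ 2)) := by
    rw [map_mul, map_mul]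
    have := mul_le_mul' (mul_le_mul' (hge _ c1) (hge _ c2)) (hge _ c3)
    rw [← exp_add, ← exp_add] at this
    exact this
  have h9 := h8.trans h7
  rw [exp_le_exp] at h9
  omega

include h3

/-- adding a generator -/
lemma big_add {x y z l : K} (hxy : y ^ 2 = x ^ 3 + 2000) (hx : v x < 1) (hz : z ^ 3 = 8000)
    (hxz : v (x - z) ≤ exp (-2 : ℤ)) (e2 : l * (y + 100) = x ^ 2 + x * z + z ^ 2) :
    1 ≤ v (l ^ 2 - x - z) := by
  have hxv := small_x h5 h2 hxy hx
  have hyv := (small_y h5 h2 hxy hx).2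
  have hzv : v z = exp (-1 : ℤ) := by
    have e : z = x - (x - z) := by ring
    rw [e, Valuation.map_sub_eq_of_lt_left v, hxv]
    rw [hxv]
    refine lt_of_le_of_lt hxz ?_
    rw [exp_lt_exp]
    norm_num
  have h6 : v (x ^ 2 + x * z + z ^ 2) = exp (-2 : ℤ) := by
    have e : x ^ 2 + x * z + z ^ 2 = 3 * z ^ 2 + (x - z) * (x + 2 * z) := by ring
    have h7 : v (3 * z ^ 2) = exp (-2 : ℤ) := by
      rw [map_mul, map_pow, h3, hzv, one_mul, ← exp_nsmul]
      rfl
    rw [e, Valuation.map_add_eq_of_lt_left v, h7]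
    rw [h7, map_mul]
    have h8 : v (x + 2 * z) ≤ exp (-1 : ℤ) := by
      refine v.map_add_le hxv.le ?_
      rw [map_mul, h2, one_mul, hzv]
    refine lt_of_le_of_lt (mul_le_mul' hxz h8) ?_
    rw [← exp_add, exp_lt_exp]
    norm_num
  have h7 : v (y + 100) ≤ exp (-2 : ℤ) := v.map_add_le hyv (v100 h5 h2).le
  have hl : 1 ≤ v l := by
    by_contra hcon
    push Not at hcon
    have h8 := congrArg v e2
    rw [map_mul, h6] at h8
    have h9 : v l * v (y + 100) < exp (-2 : ℤ) := by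
      refine lt_of_le_of_lt (mul_le_mul' le_rfl h7) ?_
      exact mul_lt_of_lt_one_left exp_pos hcon
    rw [h8] at h9
    exact lt_irrefl _ h9
  have hl2 : 1 ≤ v (l ^ 2) := by
    rw [map_pow]
    exact one_le_pow₀ hl
  have h10 : v (l ^ 2 - x - z) = v (l ^ 2) := by
    have e : l ^ 2 - x - z = l ^ 2 - (x + z) := by ring
    rw [e]
    refine Valuation.map_sub_eq_of_lt_left v ?_
    refine lt_of_lt_of_le ?_ hl2
    refine lt_of_le_of_lt (v.map_add_le hxv.le hzv.le) ?_
    rw [← exp_zero, exp_lt_exp]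
    norm_num
  rw [h10]
  exact hl2

/-- the doubles -/
lemma big_dbl {x y l : K} (hxy : y ^ 2 = x ^ 3 + 2000) (hy : y ≠ 0)
    (e2 : l * (y + y) = x ^ 2 + x * x + x ^ 2) : 1 ≤ v (l ^ 2 - x - x) := by
  have hvy : v (y ^ 2) ≠ 0 := by
    rw [map_pow]
    exact pow_ne_zero 2 ((v.ne_zero_iff).2 hy)
  have key : v (l ^ 2 - x - x) * v (y ^ 2) = v x * v (x ^ 3 - 16000) := by
    have e : (2 * 2) * ((l ^ 2 - x - x) * y ^ 2) = x * (x ^ 3 - 16000) := by
      linear_combination (l * (y + y) + (x ^ 2 + x * x + x ^ 2)) * e2 - 8 * x * hxy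
    have h6 := congrArg v e
    rw [map_mul v (2 * 2), map_mul v 2, h2, one_mul, one_mul, map_mul, map_mul] at h6
    exact h6
  have h1600 : v 16000 < 1 := by
    rw [v16000 h5 h2, ← exp_zero, exp_lt_exp]
    norm_num
  have h2000 : v 2000 < 1 := by
    rw [v2000 h5 h2, ← exp_zero, exp_lt_exp]
    norm_num
  rcases lt_trichotomy (v x) 1 with hx | hx | hx
  · have h7 := (small_y h5 h2 hxy hx).1
    have h8 : v (x ^ 3 - 16000) = exp (-3 : ℤ) := by
      have e : x ^ 3 - 16000 = y ^ 2 - 18000 := by rw [hxy]; ring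
      rw [e, Valuation.map_sub_eq_of_lt_right v, v18000 h5 h2 h3]
      rw [v18000 h5 h2 h3]
      refine lt_of_le_of_lt h7 ?_
      rw [exp_lt_exp]
      norm_num
    rw [h8, small_x h5 h2 hxy hx, ← exp_add] at key
    by_contra hcon
    push Not at hcon
    have h9 : v (l ^ 2 - x - x) * v (y ^ 2) < exp (-4 : ℤ) := by
      refine lt_of_le_of_lt (mul_le_mul' le_rfl h7) ?_
      exact mul_lt_of_lt_one_left exp_pos hcon
    rw [key] at h9
    exact lt_irrefl _ h9
  · have h8 : v (x ^ 3 - 16000) = 1 := by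
      have h9 : v (x ^ 3) = 1 := by rw [map_pow, hx, one_pow]
      rw [Valuation.map_sub_eq_of_lt_left v, h9]
      rw [h9]
      exact h1600
    have h10 : v (y ^ 2) ≤ 1 := by
      rw [hxy]
      refine v.map_add_le ?_ h2000.le
      rw [map_pow, hx, one_pow]
    rw [h8, hx, one_mul] at key
    by_contra hcon
    push Not at hcon
    have h9 : v (l ^ 2 - x - x) * v (y ^ 2) < 1 :=
      mul_lt_one_of_nonneg_of_lt_one_left zero_le hcon h10
    rw [key] at h9
    exact lt_irrefl _ h9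
  · have hx3 : 1 < v (x ^ 3) := by
      rw [map_pow]
      exact one_lt_pow₀ hx three_ne_zero
    have h8 : v (x ^ 3 - 16000) = v (x ^ 3) :=
      Valuation.map_sub_eq_of_lt_left v (h1600.trans hx3)
    have h9 : v (y ^ 2) = v (x ^ 3) := by
      rw [hxy]
      exact Valuation.map_add_eq_of_lt_left v (h2000.trans hx3)
    rw [h8, h9] at key
    have h10 := mul_right_cancel₀ (by rw [← h9]; exact hvy) key
    rw [h10]
    exact hx.le

end val

end Pool.Agent.H98.A
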