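import Pool.Agent.H98.A.Cos
import Pool.Graph.R_pool_sql_team_seeded_35f281b4.K7.H70.TW.C

/-!
# The points of the twists
-/

set_option autoImplicit false
set_option linter.unusedSectionVars false
set_option linter.unusedVariables false

open NumberField IsDedekindDomain WithZero WeierstrassCurve

namespace Pool.Agent.H98.A

open Pool.Agent.Y696
open Pool.Agent.K7.H70.SM
open Pool.Agent.H98.B
open Pool.Agent.K7.H70.TW (Ed)
open scoped Classical

section
variable {k E : Type} [Field k] [NumberField k] [Field E] [NumberField E] [Algebra k E]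

lemma rkTwo' (hE : Gz E) (h5 : P5 E) {w : E} (hw : w ^ 2 + w + 1 = 0) :
    ∀ V : WeierstrassCurve E, V = E5 E → AddGroup.FG V.toAffine.Point ∧ V.Δ ≠ 0 ∧
      (∀ x y : E, V.toAffine.Equation x y ↔ y ^ 2 = x ^ 3 + 2000) ∧
      (∀ x y : E, V.toAffine.negY x y = -y) ∧
      ∃ (n0 : V.toAffine.Nonsingular (20 * 1) 100) (n1 : V.toAffine.Nonsingular (20 * w) 100)
        (n2 : V.toAffine.Nonsingular (20 * w ^ 2) 100),
        RkTwo V.toAffine.Point (.some _ _ n0) (.some _ _ n1) (.some _ _ n2) := by
  rintro V rfl
  exact ⟨fg5 E, E5_Δ, fun x y => eqn_iff, negY_eq, _, _, _, rkTwo hE h5 hw⟩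

/-- the twists have finitely many points -/
theorem fin_tw (hE : Gz E) (h5 : P5 E) {w : k} (hw : w ^ 2 + w + 1 = 0) {d : k} (hd : d ≠ 0)
    {e : E} (he : e ^ 2 = algebraMap k E d) (σ : E →ₐ[k] E) (hσ : σ e = -e) :
    Finite (Ed (5 * d)).toAffine.Point := by
  have hwE : (algebraMap k E w) ^ 2 + algebraMap k E w + 1 = 0 := by
    rw [← map_pow, ← map_add, ← map_one (algebraMap k E), ← map_add, hw, map_zero]
  have hV : (E5 k).baseChange E = E5 E := by
    ext
    · simp
    · simp
    · simp
    · simp
    · exact map_ofNat (algebraMap k E) 2000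
  obtain ⟨hfg, hΔ, heq, hneg, n0, n1, n2, hR⟩ := rkTwo' hE h5 hwE _ hV
  have hfin := hR.fin_anti hfg (Affine.Point.map (W' := E5 k) σ) (by
      simp only [Affine.Point.map_some, map_mul, map_ofNat, map_one]) (by
      simp only [Affine.Point.map_some, map_mul, map_ofNat, AlgHom.commutes]) (by
      simp only [Affine.Point.map_some, map_mul, map_ofNat, map_pow, AlgHom.commutes])
  have he0 : e ≠ 0 := by
    rintro rfl
    rw [zero_pow two_ne_zero] at he
    exact hd ((map_eq_zero _).1 he.symm)
  have hdE : algebraMap k E d ≠ 0 := (map_ne_zero _).2 hd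
  have hmap : ∀ x y : k, (Ed (5 * d)).toAffine.Equation x y →
      ((E5 k).baseChange E).toAffine.Nonsingular (algebraMap k E (x / d))
        (algebraMap k E (y / d) / e) := by
    intro x y hxy
    refine (Affine.equation_iff_nonsingular_of_Δ_ne_zero hΔ).1 ((heq _ _).2 ?_)
    rw [Affine.equation_iff] at hxy
    simp only [zero_mul, add_zero] at hxy
    have h1 := congrArg (algebraMap k E) hxy
    simp only [map_add, map_mul, map_pow, map_ofNat] at h1
    simp only [map_div₀]
    rw [← he] at h1 ⊢
    field_simp
    linear_combination h1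
  refine Finite.of_injective (β := Option {P : ((E5 k).baseChange E).toAffine.Point //
      Affine.Point.map (W' := E5 k) σ P = -P})
    (fun P => match P with
      | .zero => none
      | .some x y h => some ⟨.some _ _ (hmap x y h.1), ?_⟩) ?_
  · rw [Affine.Point.map_some, Affine.Point.neg_some, Affine.Point.some.injEq]
    refine ⟨AlgHom.commutes σ _, ?_⟩
    rw [hneg, map_div₀, AlgHom.commutes, hσ, div_neg]
  · intro P P' hP
    match P, P' with
    | .zero, .zero => rfl
    | .zero, .some _ _ _ => simp at hP
    | .some _ _ _, .zero => simp at hP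
    | .some x y h, .some x' y' h' =>
      simp only [Option.some.injEq, Subtype.mk.injEq, Affine.Point.some.injEq] at hP
      obtain ⟨hx, hy⟩ := hP
      have e1 := (algebraMap k E).injective hx
      have e2 := (algebraMap k E).injective ((div_left_inj' he0).1 hy)
      have e3 : x = x' := (div_left_inj' hd).1 e1
      have e4 : y = y' := (div_left_inj' hd).1 e2
      subst e3
      subst e4
      rfl

end

end Pool.Agent.H98.A
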