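import Pool.Agent.H98.B.An2
import Pool.Agent.H98.A.Frm
import Pool.Agent.H98.A.Twi
import Pool.Graph.R_seed8.Y700.VC

/-!
# The main theorem
-/

set_option autoImplicit false
set_option linter.unusedSectionVars false
set_option linter.unusedVariables false

open NumberField IsDedekindDomain WeierstrassCurve

namespace Pool.Agent.H98.A

open Pool.Agent.K7.H56
open Pool.Agent.K7.H56.P
open Pool.Agent.Y696
open Pool.Agent.K7.H70.SM
open Pool.Agent.K7.H56.M
open Pool.Agent.K7.H70.AS
open Pool.Agent.H98.B
open Pool.Agent.W189.NF (aV eV)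
open Pool.Agent.K7.H70.TW (Ed fin_change)
open Pool.Agent.K7.H73.L3 (gz3)
open scoped Classical

/-- a change of variables -/
lemma vr_of {F : Type} [Field F] (C : VariableChange F) (W : WeierstrassCurve F) :
    Pool.Agent.Y700.VR W (C • W) (C.u : F) C.r C.s C.t := by
  have hu : (C.u : F) ≠ 0 := C.u.ne_zero
  refine ⟨hu, ?_, ?_, ?_, ?_, ?_⟩
  · rw [variableChange_a₁, Units.val_inv_eq_inv_val]
    field_simp
  · rw [variableChange_a₂, Units.val_inv_eq_inv_val]
    field_simp
  · rw [variableChange_a₃, Units.val_inv_eq_inv_val]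
    field_simp
  · rw [variableChange_a₄, Units.val_inv_eq_inv_val]
    field_simp
  · rw [variableChange_a₆, Units.val_inv_eq_inv_val]
    field_simp

/-- the points of an isomorphic curve -/
lemma iso_pts {F : Type} [Field F] [CharZero F] {W : WeierstrassCurve F} {C : VariableChange F}
    (h : C • W = E5 F) : Nonempty ((E5 F).toAffine.Point ≃+ W.toAffine.Point) := by
  have h1 := vr_of C W
  rw [h] at h1
  exact ⟨h1.equiv E5_Δ⟩

lemma fg_equiv {A B : Type} [AddCommGroup A] [AddCommGroup B] (e : A ≃+ B) (h : AddGroup.FG A) :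
    AddGroup.FG B :=
  Pool.Agent.H64R2.DDMWK.fg_of_inj e.symm.toAddMonoidHom e.symm.injective h

lemma fg_fin {A : Type} [AddCommGroup A] (h : Finite A) : AddGroup.FG A := inferInstance

lemma rank_fin {A : Type} [AddCommGroup A] (h : Finite A) : Module.finrank ℤ A = 0 := by
  rw [Module.finrank_eq_zero_iff_isTorsion]
  intro x
  exact ⟨⟨(addOrderOf x : ℤ), mem_nonZeroDivisors_of_ne_zero (by
    exact_mod_cast (addOrderOf_pos x).ne')⟩, by
      show (addOrderOf x : ℤ) • x = 0
      rw [natCast_zsmul]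
      exact addOrderOf_nsmul_eq_zero x⟩

/-- **The main theorem** -/
theorem main {M0 L : Type} [Field M0] [NumberField M0] [IsCyclotomicExtension {3} ℚ M0] [Field L]
    [NumberField L] [Algebra M0 L] [IsGalois M0 L]
    (hr : ∃ r : ℕ, Module.finrank M0 L = 2 ^ r) (hG : Gd M0 L)
    {k K : Type} [Field k] [NumberField k] [Field K] [NumberField K] [Algebra k K] [Algebra K L]
    {w : k} (hw : w ^ 2 + w + 1 = 0) (hK : P5 K) (W : WeierstrassCurve k) (C : VariableChange K)
    (hC : C • W.map (algebraMap k K) = E5 K) :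
    AddGroup.FG W.toAffine.Point ∧
      ((∃ C' : VariableChange k, C' • W = E5 k) → Module.finrank ℤ W.toAffine.Point = 2) ∧
      ((¬ ∃ C' : VariableChange k, C' • W = E5 k) → Finite W.toAffine.Point) ∧
      Bsd W (Module.finrank ℤ W.toAffine.Point) := by
  have hU : Unr2 L := by
    obtain ⟨r, hr'⟩ := hr
    exact ((gz3 M0).step hr' hG).two
  let _ : Algebra k L := ((algebraMap K L).comp (algebraMap k K)).toAlgebra
  have hst : IsScalarTower k K L := IsScalarTower.of_algebraMap_eq' rfl
  obtain ⟨m, hm⟩ : ∃ m : ℕ, Module.finrank k K = 2 ^ m := by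
    obtain ⟨r, hr'⟩ := hr
    have hM2 : Module.finrank ℚ M0 = 2 := by
      rw [IsCyclotomicExtension.finrank (n := 3) M0
        (Polynomial.cyclotomic.irreducible_rat (by norm_num))]
      rfl
    have h1 : Module.finrank ℚ L = 2 ^ (r + 1) := by
      rw [← Module.finrank_mul_finrank ℚ M0 L, hM2, hr']
      ring
    have h2 : Module.finrank k K ∣ 2 ^ (r + 1) := by
      rw [← h1, ← Module.finrank_mul_finrank ℚ k L, ← Module.finrank_mul_finrank k K L]
      exact ⟨Module.finrank ℚ k * Module.finrank K L, by ring⟩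
    obtain ⟨m, -, hm⟩ := (Nat.dvd_prime_pow Nat.prime_two).1 h2
    exact ⟨m, hm⟩
  obtain ⟨h4, d, θ, hd, hθ, C', hC'⟩ := form5 hm W C hC
  have ha : (2 * w + 1) ^ 2 = -3 := by linear_combination 4 * hw
  obtain ⟨hb, hB⟩ := an_main hr hU hG ha hK hd hθ
  have hW : W = C'⁻¹ • Ed (5 * d) := by rw [← hC', inv_smul_smul]
  have hBW : Bsd W (if IsSquare d then 2 else 0) := by
    rw [hW]
    exact hB.change (Pool.Agent.K7.H89.TW.c₄_twist (5 * d)) hb C'⁻¹
  have htriv := triv_iff hw W hd C' hC'
  by_cases hsq : IsSquare d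
  · rw [if_pos hsq] at hBW
    obtain ⟨C2, hC2⟩ := htriv.2 hsq
    obtain ⟨e⟩ := iso_pts hC2
    have hk5 : P5 k := five_down (N := k) hK
    have hGz : Gz k := gz_all hr hG ha
    have hrk : Module.finrank ℤ W.toAffine.Point = 2 := by
      rw [← e.toIntLinearEquiv.finrank_eq]
      exact (rkTwo hGz hk5 hw).rank (fg5 k)
    refine ⟨fg_equiv e (fg5 k), fun _ => hrk, fun h => absurd ⟨C2, hC2⟩ h, ?_⟩
    rw [hrk]
    exact hBW
  · rw [if_neg hsq] at hBW
    have hfin : Finite W.toAffine.Point := by
      set E := IntermediateField.adjoin k {θ} with hE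
      have heE : θ ∈ E := IntermediateField.mem_adjoin_simple_self k θ
      set eE : E := ⟨θ, heE⟩ with heEd
      have heE2 : eE ^ 2 = algebraMap k E d := Subtype.ext hθ
      have h2E : Module.finrank k E = 2 := by
        have hirr : Irreducible (Polynomial.X ^ 2 - Polynomial.C d) := by
          rw [X_pow_sub_C_irreducible_iff_of_prime Nat.prime_two]
          intro b hb
          exact hsq ⟨b, by rw [← hb, pow_two]⟩
        have hmin : minpoly k θ = Polynomial.X ^ 2 - Polynomial.C d := by
          refine (minpoly.eq_of_irreducible_of_monic hirr ?_ (Polynomial.monic_X_pow_sub_C _ two_ne_zero)).symm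
          rw [map_sub, map_pow, Polynomial.aeval_X, Polynomial.aeval_C, hθ, sub_self]
        have hint : _root_.IsIntegral k θ := Algebra.IsIntegral.isIntegral θ
        have h3 := IntermediateField.adjoin.finrank hint
        rw [hmin, Polynomial.natDegree_X_pow_sub_C] at h3
        exact h3
      have hgE : IsGalois k E := gal2' h2E
      have hE5 : P5 E := five_down (N := E) hK
      have haE : (algebraMap k E (2 * w + 1)) ^ 2 = -3 := by rw [← map_pow, ha, map_neg, map_ofNat]
      have hGz : Gz E := gz_all hr hG haE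
      obtain ⟨σ, hσ⟩ : ∃ σ : E ≃ₐ[k] E, σ eE ≠ eE := by
        by_contra hcon
        push Not at hcon
        have h1 : eE ∈ (⊥ : IntermediateField k E) := (IsGalois.mem_bot_iff_fixed eE).2 hcon
        obtain ⟨c, hc⟩ := IntermediateField.mem_bot.1 h1
        apply hsq
        refine ⟨c, (algebraMap k E).injective ?_⟩
        rw [map_mul, hc, ← pow_two, heE2]
      have hσ2 : σ eE = -eE := by
        have h1 : (σ eE) ^ 2 = eE ^ 2 := by rw [← map_pow, heE2, AlgEquiv.commutes]
        exact (sq_eq_sq_iff_eq_or_eq_neg.1 h1).resolve_left hσ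
      have hf := fin_tw hGz hE5 hw hd heE2 (σ : E →ₐ[k] E) hσ2
      refine fin_change (RingHom.id k) W C' (V := Ed (5 * d)) ?_ ?_ hf
      · rw [WeierstrassCurve.map_id]
        exact hC'
      · rw [Pool.Agent.K7.H70.TW.Ed_Δ]
        refine mul_ne_zero (by norm_num) (pow_ne_zero 6 (mul_ne_zero (by norm_num) hd))
    refine ⟨fg_fin hfin, fun h => absurd (htriv.1 h) hsq, fun _ => hfin, ?_⟩
    rw [rank_fin hfin]
    exact hBW

end Pool.Agent.H98.A
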