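import Pool.Agent.H98.A.Gza
import Pool.Agent.H98.A.Crv
import Pool.Agent.H98.A.Loc5

/-!
# The classes modulo two
-/

set_option autoImplicit false
set_option linter.unusedSectionVars false
set_option linter.unusedVariables false

open NumberField IsDedekindDomain WithZero

namespace Pool.Agent.H98.A

open Pool.Agent.Y696
open Pool.Agent.K7.H70.SM
open Pool.Agent.H98.B
open scoped Classical

section
variable {K : Type} [Field K] [NumberField K]

lemma no2 (hK : Gz K) {a b : K} (h : b ^ 2 = a ^ 3 + 2000) : b ≠ 0 := by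
  rintro rfl
  refine no_cube_of_two hK.two (-a / 10) ?_
  rw [div_pow, neg_pow]
  field_simp
  linear_combination h

lemma val_one {v : HeightOneSpectrum (𝓞 K)} {n : ℕ} (h : ((n : ℕ) : 𝓞 K) ∉ v.asIdeal) :
    v.valuation K (n : K) = 1 := by
  have h1 := (nat_mem_iff v n).not.1 h
  refine le_antisymm ?_ (not_lt.1 h1)
  have := v.valuation_le_one (K := K) (n : 𝓞 K)
  have e : algebraMap (𝓞 K) K (n : 𝓞 K) = (n : K) := map_natCast (algebraMap (𝓞 K) K) n
  rw [← e]
  exact this

/-- the valuation above five -/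
noncomputable abbrev v5 (h5 : P5 K) : Valuation K ℤᵐ⁰ := (p5 h5).valuation K

lemma v5_five (h5 : P5 K) : v5 h5 5 = exp (-1 : ℤ) := by
  have h1 := HeightOneSpectrum.intValuation_singleton (p5 h5) (r := (5 : 𝓞 K)) five_ne (p5_ideal h5)
  rw [← h1, ← HeightOneSpectrum.valuation_of_algebraMap (K := K)]
  exact congrArg _ (map_ofNat (algebraMap (𝓞 K) K) 5).symm

lemma v5_two (h5 : P5 K) : v5 h5 2 = 1 := by
  have h1 : v5 h5 ((2 : ℕ) : K) = 1 := by
    refine val_one fun h => (p5 h5).isPrime.ne_top ((Ideal.eq_top_iff_one _).2 ?_)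
    have h2 : (5 : 𝓞 K) ∈ (p5 h5).asIdeal := (mem_p5 h5).2 dvd_rfl
    have e : (1 : 𝓞 K) = 5 - ((2 : ℕ) : 𝓞 K) - ((2 : ℕ) : 𝓞 K) := by push_cast; ring
    rw [e]
    exact Ideal.sub_mem _ (Ideal.sub_mem _ h2 h) h
  exact_mod_cast h1

lemma v5_three (h5 : P5 K) : v5 h5 3 = 1 := by
  have h1 : v5 h5 ((3 : ℕ) : K) = 1 := by
    refine val_one fun h => three_p5 h5 ?_
    exact_mod_cast h
  exact_mod_cast h1

/-- the Selmer condition -/
theorem pa_of (hK : Gz K) (h5 : P5 K) {x y : K} (hxy : y ^ 2 = x ^ 3 + 2000) (hx : 1 ≤ v5 h5 x) :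
    PA (⟨x, 10, 0⟩ : Cb K) := by
  have hy := no2 hK hxy
  have hN : (⟨x, 10, 0⟩ : Cb K).N = y ^ 2 := by
    rw [hxy]
    simp [Cb.N]
    norm_num
  refine ⟨by rw [hN]; exact pow_ne_zero 2 hy, ⟨y, hN⟩, fun v hv => ?_, fun v hv => ?_⟩
  · have e2 : v.valuation K 2 = 1 := by
      have : v.valuation K ((2 : ℕ) : K) = 1 := val_one fun h => hv (by
        have e : ((6 : ℕ) : 𝓞 K) = ((2 : ℕ) : 𝓞 K) * 3 := by push_cast; norm_num
        rw [e]
        exact Ideal.mul_mem_right _ _ h)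
      exact_mod_cast this
    have e3 : v.valuation K 3 = 1 := by
      have : v.valuation K ((3 : ℕ) : K) = 1 := val_one fun h => hv (by
        have e : ((6 : ℕ) : 𝓞 K) = ((3 : ℕ) : 𝓞 K) * 2 := by push_cast; norm_num
        rw [e]
        exact Ideal.mul_mem_right _ _ h)
      exact_mod_cast this
    by_cases h : (5 : 𝓞 K) ∈ v.asIdeal
    · have hv5 := p5_uniq h5 h
      subst hv5
      refine ev_five hxy e2 ?_ hx
      have := v5_five h5
      rw [this, ← exp_zero, exp_lt_exp]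
      norm_num
    · have e5 : v.valuation K 5 = 1 := by
        have : v.valuation K ((5 : ℕ) : K) = 1 := val_one fun h' => h (by exact_mod_cast h')
        exact_mod_cast this
      exact ev_good hxy hy e2 e3 e5
  · exact lv_two hxy hy (hK.two v hv)

/-- divisibility by two -/
theorem half_big (hK : Gz K) (h5 : P5 K) {x y : K} (hxy : y ^ 2 = x ^ 3 + 2000)
    (hx : 1 ≤ v5 h5 x) : ∃ R : (E5 K).toAffine.Point, pt hxy = R + R := by
  have hN : (⟨x, 10, 0⟩ : Cb K).N = y ^ 2 := by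
    rw [hxy]
    simp [Cb.N]
    norm_num
  obtain ⟨r, hr⟩ := hK.sq _ (pa_of hK h5 hxy hx)
  have hNr : r.N ^ 2 = y ^ 2 := by
    rw [← hN, hr, Cb.N_mul, pow_two]
  have key : ∀ r : Cb K, (⟨x, 10, 0⟩ : Cb K) = r * r → r.N = y →
      ∃ R : (E5 K).toAffine.Point, pt hxy = R + R := by
    intro r hr hy
    have ha := congrArg Cb.a hr
    have hb := congrArg Cb.b hr
    have hc := congrArg Cb.c hr
    simp only [Cb.mul_a, Cb.mul_b, Cb.mul_c] at ha hb hc
    refine halve (u := r.a) (v := r.b) (w := r.c) hxy ?_ ?_ ?_ ?_ fun a b h => no2 hK h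
    · rw [ha]
      ring
    · rw [hb]
      ring
    · linear_combination -hc
    · rw [← hy]
      rfl
  rcases sq_eq_sq_iff_eq_or_eq_neg.1 hNr with h | h
  · exact key r hr h
  · exact key (-r) (by rw [neg_mul_neg]; exact hr) (by rw [Cb.N_neg, h, neg_neg])

end

end Pool.Agent.H98.A
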